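import Pool.Agent.Helper97.SZ.Goals

/-!
# A cancelling pair at any large distance (packet SZ-PAIR of helper97)
-/

set_option autoImplicit false

open Set Filter Topology Metric
open scoped ContDiff

namespace Pool.Agent.Helper69.SZ

open Pool.Agent.Helper91.SY Pool.Agent.Helper97.SZ

theorem pair (hMV : StmtMOVE) (hIS : StmtIS) : StmtPAIR := by
  intro n hn B Z B0 ρ D₁ T₀ e ℓ hρ hB hBf hZ hZf hT he hℓe hℓ hiso
  refine ⟨2 * (|D₁| + ρ + T₀ + 2), fun S hS => ?_⟩
  have hD0 := abs_nonneg D₁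
  have hD1 := le_abs_self D₁
  have hT0 : 0 < T₀ := by linarith
  have hST : T₀ ≤ S := by linarith
  set c : ℝ → V n := fun t => (S + t * (T₀ - S)) • e with hc
  set K : Set (V n) := {x | ∃ t ∈ Icc (0 : ℝ) 1, ‖x - c t‖ ≤ ρ} with hK
  have hcs : ContDiff ℝ ∞ c := by
    have h1 : ContDiff ℝ ∞ (fun t : ℝ => S + t * (T₀ - S)) :=
      contDiff_const.add (contDiff_id.mul contDiff_const)
    exact h1.smul contDiff_const
  have hct : ∀ t ∈ Icc (0 : ℝ) 1, T₀ ≤ S + t * (T₀ - S) ∧ S + t * (T₀ - S) ≤ S := by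
    intro t ht
    constructor <;> nlinarith [ht.1, ht.2]
  have hKℓ : ∀ x ∈ K, T₀ - ρ ≤ ℓ x ∧ ℓ x ≤ S + ρ := by
    rintro x ⟨t, ht, hx⟩
    have h1 : ℓ x = (S + t * (T₀ - S)) + ℓ (x - c t) := by
      rw [map_sub, hc]
      simp only [map_smul, smul_eq_mul, hℓe]
      ring
    have h2 := abs_le.1 ((hℓ (x - c t)).trans hx)
    have h3 := hct t ht
    constructor <;> linarith [h2.1, h2.2, h3.1, h3.2]
  have hKc : IsCompact K := by
    have h1 : K = (fun p : ℝ × V n => c p.1 + p.2) '' (Icc (0 : ℝ) 1 ×ˢ closedBall 0 ρ) := by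
      ext x
      constructor
      · rintro ⟨t, ht, hx⟩
        refine ⟨(t, x - c t), ⟨ht, ?_⟩, ?_⟩
        · rw [mem_closedBall, dist_zero_right]
          exact hx
        · simp
      · rintro ⟨⟨t, y⟩, ⟨ht, hy⟩, rfl⟩
        refine ⟨t, ht, ?_⟩
        rw [mem_closedBall, dist_zero_right] at hy
        simpa using hy
    rw [h1]
    apply (isCompact_Icc.prod (isCompact_closedBall 0 ρ)).image
    exact (hcs.continuous.comp continuous_fst).add continuous_snd
  have hmove := hMV n hn B Z B0 ρ c (fun _ => 1) K hρ hB hBf hZ hcs contDiff_const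
    (fun _ _ => one_pos) hKc (fun t ht x hx => ⟨t, ht, by rwa [one_mul] at hx⟩)
    (fun x hx => by
      apply hZf
      have h1 := hKℓ x hx
      have h2 := le_abs_self (ℓ x)
      have h3 := hℓ x
      linarith [h1.1])
  have hc0 : c 0 = S • e := by rw [hc]; simp
  have hc1 : c 1 = T₀ • e := by rw [hc]; simp
  rw [hc0, hc1] at hmove
  obtain ⟨_, _, htrans, _, _⟩ := hIS (V n)
  obtain ⟨F, hF, hFid, hFp⟩ := htrans _ _ _ _ _ hmove hiso
  refine ⟨F, hF, fun x hx => ?_, hFp⟩
  apply hFid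
  rintro (h | h)
  · have h1 := hKℓ x h
    rcases le_abs.1 hx with h2 | h2
    · linarith [h1.1, h1.2]
    · linarith [h1.1, h1.2]
  · rw [mem_closedBall, dist_zero_right] at h
    have h1 := abs_le.1 ((hℓ x).trans h)
    rcases le_abs.1 hx with h2 | h2
    · linarith [h1.1, h1.2]
    · linarith [h1.1, h1.2]

end Pool.Agent.Helper69.SZ
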